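import Pool.Agent.U613.PO.Crit
import Pool.Agent.Y50.FE.Uni
import Pool.Agent.Results.MP_544bd1_al.ExponentTwiceOdd

/-!
# The exponents `5, 10, 12, 15, 20`
-/

set_option autoImplicit false

namespace Pool.Agent.U613.PO

universe u

open Pool.Agent.H32BU Pool.Agent.Y50.FE

theorem twelve_card : (12 : ℕ).primeFactors.card ≤ 2 := by
  have h : (12 : ℕ).primeFactors ⊆ {2, 3} := by
    intro p hp
    have h3 := Nat.prime_of_mem_primeFactors hp
    have h4 : p ∣ 2 ^ 2 * 3 := Nat.dvd_of_mem_primeFactors hp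
    rcases h3.dvd_mul.1 h4 with h5 | h5
    · simp [(Nat.prime_dvd_prime_iff_eq h3 Nat.prime_two).1 (h3.dvd_of_dvd_pow h5)]
    · simp [(Nat.prime_dvd_prime_iff_eq h3 Nat.prime_three).1 h5]
  exact (Finset.card_le_card h).trans (by decide)

theorem pp_twelve {p k : ℕ} (hp : p.Prime) (h : p ^ k ∣ 12) : p ^ k ≤ 4 := by
  by_cases h3 : p = 3
  · subst h3
    have h4 : 3 ^ k ∣ 3 := (Nat.Coprime.pow_left k (by norm_num : Nat.Coprime 3 4)).dvd_of_dvd_mul_left
      (show 3 ^ k ∣ 4 * 3 from h)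
    have := Nat.le_of_dvd (by norm_num) h4
    omega
  · have h4 : p ^ k ∣ 4 := (Nat.Coprime.pow_left k
      ((Nat.coprime_primes hp Nat.prime_three).2 h3)).dvd_of_dvd_mul_right
      (show p ^ k ∣ 4 * 3 from h)
    exact Nat.le_of_dvd (by norm_num) h4

/-- known: three generators decide -/
theorem inL_three {n : ℕ} (hn : n = 5 ∨ n = 10 ∨ n = 12 ∨ n = 15 ∨ n = 20) (h : Finite (B 3 n)) :
    InL.{u} n := by
  rcases hn with rfl | rfl | rfl | rfl | rfl
  · exact (inL_small.{u} 5 (by norm_num)).2 h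
  · exact (inL_small.{u} 10 (by norm_num)).2 h
  · refine (x_FINAL.{u} 12 (by norm_num) (Or.inl twelve_card) ?_).2 h
    intro p k hp hk h4
    have := pp_twelve hp hk
    omega
  · exact (inL_small.{u} 15 (by norm_num)).2 h
  · exact (inL_small.{u} 20 (by norm_num)).2 h

theorem two_gen {a b c m : ℕ} (ha : 1 ≤ a) (hb : 1 ≤ b) (hac : a ∣ c) (hbc : b ∣ c) :
    a * b * Nat.card (B ((a - 1) * (b - 1)) m) ∣ Nat.card (P 2 (c * m) ![a, b]) := by
  have : ∀ i : Fin 2, NeZero ((![a, b] : Fin 2 → ℕ) i) := by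
    intro i
    constructor
    fin_cases i
    · change a ≠ 0; omega
    · change b ≠ 0; omega
  have h := abelian ![a, b] (c := c) (m := m) (ρ := (a - 1) * (b - 1)) (by
    intro i
    fin_cases i
    · exact hac
    · exact hbc) (by
    obtain ⟨a, rfl⟩ : ∃ a', a = a' + 1 := ⟨a - 1, by omega⟩
    obtain ⟨b, rfl⟩ : ∃ b', b = b' + 1 := ⟨b - 1, by omega⟩
    simp only [Fin.prod_univ_two, Fin.sum_univ_two, Matrix.cons_val_zero, Matrix.cons_val_one,
      Nat.add_sub_cancel]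
    rw [Nat.mul_div_cancel_left _ (by omega), Nat.mul_div_cancel _ (by omega)]
    ring)
  simpa [Fin.prod_univ_two] using h

theorem three_inv (m : ℕ) :
    8 * Nat.card (B 5 m) ∣ Nat.card (P 3 (2 * m) fun _ => 2) :=
  equal 3 (r := 2) (m := m) (ρ := 5) (by norm_num) (by norm_num)

theorem small {n : ℕ} (hn : n = 5 ∨ n = 10 ∨ n = 12 ∨ n = 15 ∨ n = 20) :
    (Finite (P 3 (2 * n) fun _ => 2) → InL.{u} n) ∧ (Finite (P 2 (6 * n) ![2, 3]) → InL.{u} n) ∧
    ∀ a b c : ℕ, a ∣ c → b ∣ c → 3 ≤ (a - 1) * (b - 1) → Finite (P 2 (c * n) ![a, b]) →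
      InL.{u} n := by
  refine ⟨fun h => inL_three hn (b_mono (by norm_num) (fin_of_dvd (three_inv n) h)),
    fun h => inL_three hn (fin_of_dvd (modular n) h), fun a b c hac hbc hab h =>
      inL_three hn (b_mono hab (fin_of_dvd (two_gen ?_ ?_ hac hbc) h))⟩
  · rcases a with _ | a
    · simp at hab
    · omega
  · rcases b with _ | b
    · simp at hab
    · omega

theorem ten : InL.{u} 10 ↔ Finite (P 3 10 fun _ => 2) ∧ Finite (P 2 10 fun _ => 5) := by
  have h := (Pool.Agent.Results.MP_544bd1_al.ExponentTwiceOdd.result.{u}).2.2.2.1 5 1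
    Nat.prime_five (by norm_num)
  norm_num at h
  constructor
  · intro h1
    exact ⟨(h.1 h1).2.2, (h.1 h1).2.1⟩
  · rintro ⟨h1, h2⟩
    exact h.2 ⟨(small.{u} (n := 5) (Or.inl rfl)).1 h1, h2, h1⟩

end Pool.Agent.U613.PO
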