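import Pool.Agent.U613.PO.Four

/-!
# Local finiteness is decided by the groups generated by elements of one order `r`, `r ∣ n`
-/

set_option autoImplicit false

namespace Pool.Agent.U613.PO

universe u

theorem fin_of_dvd {a : ℕ} {Q R : Type} [Group Q] [Group R] (h : a * Nat.card Q ∣ Nat.card R)
    (hR : Finite R) : Finite Q := by
  apply Nat.finite_of_card_ne_zero
  intro h0
  rw [h0, mul_zero, zero_dvd_iff] at h
  exact Nat.card_pos.ne' h

/-- elements of one order -/
theorem equal (k : ℕ) {r m ρ : ℕ} (hr : 1 ≤ r)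
    (hρ : ρ + r ^ k + k * r ^ (k - 1) = k * r ^ k + 1) :
    r ^ k * Nat.card (B ρ m) ∣ Nat.card (P k (r * m) fun _ => r) := by
  have : NeZero r := ⟨by omega⟩
  have h := abelian (fun _ : Fin k => r) (c := r) (m := m) (ρ := ρ) (fun _ => dvd_rfl) (by
    rw [Finset.prod_const, Finset.sum_const, Finset.card_univ, Fintype.card_fin, smul_eq_mul]
    rcases k with _ | k
    · simpa using hρ
    · rw [pow_succ, Nat.mul_div_cancel _ (by omega), ← pow_succ]
      simpa using hρ)
  rwa [Finset.prod_const, Finset.card_univ, Fintype.card_fin] at h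

theorem b_of_p {r m : ℕ} (hr : 2 ≤ r) (h : ∀ k, Finite (P k (r * m) fun _ => r)) (j : ℕ) :
    Finite (B j m) := by
  refine b_mono (k := r ^ (j + 1) * ((j + 1) * r - (j + 2)) + 1) ?_
    (fin_of_dvd (equal (j + 2) (r := r) (m := m) (by omega) ?_) (h (j + 2)))
  · have h1 : j ≤ (j + 1) * r - (j + 2) := by
      have : (j + 1) * 2 ≤ (j + 1) * r := Nat.mul_le_mul_left _ hr
      omega
    have h2 : 1 ≤ r ^ (j + 1) := Nat.one_le_pow _ _ (by omega)
    have h3 : 1 * j ≤ r ^ (j + 1) * ((j + 1) * r - (j + 2)) := Nat.mul_le_mul h2 h1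
    omega
  · obtain ⟨d, hd⟩ : ∃ d, (j + 1) * r = (j + 2) + d := by
      refine ⟨(j + 1) * r - (j + 2), ?_⟩
      have : (j + 1) * 2 ≤ (j + 1) * r := Nat.mul_le_mul_left _ hr
      omega
    have h1 : (j + 1) * r - (j + 2) = d := by omega
    rw [h1, show j + 2 - 1 = j + 1 from rfl, pow_succ r (j + 1)]
    have h2 : r ^ (j + 1) * ((j + 1) * r) = r ^ (j + 1) * ((j + 2) + d) := by rw [hd]
    nlinarith [h2]

/-- the subgroup generated by the elements with trivial `r`-th power -/
def Tor (G : Type u) [Group G] (r : ℕ) : Subgroup G := Subgroup.closure {x | x ^ r = 1}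

instance tor_normal (G : Type u) [Group G] (r : ℕ) : (Tor G r).Normal := by
  refine ⟨fun x hx g => ?_⟩
  induction hx using Subgroup.closure_induction with
  | mem y hy =>
    refine Subgroup.subset_closure ?_
    change (g * y * g⁻¹) ^ r = 1
    rw [conj_pow, show y ^ r = 1 from hy, mul_one, mul_inv_cancel]
  | one => simpa using one_mem (Tor G r)
  | mul y z _ _ h1 h2 =>
    have : g * (y * z) * g⁻¹ = (g * y * g⁻¹) * (g * z * g⁻¹) := by group
    rw [this]
    exact mul_mem h1 h2
  | inv y _ h1 =>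
    have : g * y⁻¹ * g⁻¹ = (g * y * g⁻¹)⁻¹ := by group
    rw [this]
    exact inv_mem h1

theorem tor_quot {G : Type u} [Group G] {r m : ℕ} (hG : ∀ x : G, x ^ (r * m) = 1)
    (x : G ⧸ Tor G r) : x ^ m = 1 := by
  obtain ⟨g, rfl⟩ := QuotientGroup.mk_surjective x
  rw [← QuotientGroup.mk_pow, QuotientGroup.eq_one_iff]
  refine Subgroup.subset_closure ?_
  change (g ^ m) ^ r = 1
  rw [← pow_mul, mul_comm, hG]

/-- the criterion -/
theorem inL_of_p {r m : ℕ} (hr : 2 ≤ r) (h : ∀ k, Finite (P k (r * m) fun _ => r)) :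
    InL.{u} (r * m) := by
  intro G _ hG
  refine lf_ext (Tor G r) ?_ (inL_of_b.{u} (b_of_p hr h) _ (tor_quot hG))
  refine lf_closure _ fun F hF hFr => ?_
  obtain ⟨k, y, -, rfl⟩ := hF.fin_param
  exact finite_closure_of_p (h k) hG y fun i => hFr ⟨i, rfl⟩

theorem inL_iff_p {r n : ℕ} (hr : 2 ≤ r) (hrn : r ∣ n) :
    InL.{u} n ↔ ∀ k, Finite (P k n fun _ => r) := by
  obtain ⟨m, rfl⟩ := hrn
  exact ⟨fun h k => h.finite (p_exp _ _ _), inL_of_p hr⟩

/-- the criterion with normal closures of single elements -/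
theorem inL_iff_nc {r n : ℕ} (hr : 2 ≤ r) (hrn : r ∣ n) :
    InL.{u} n ↔ ∀ (G : Type u) [Group G], (∀ x : G, x ^ n = 1) → ∀ x : G, x ^ r = 1 →
      LF (Subgroup.normalClosure {x}) := by
  constructor
  · intro h G _ hG x _
    exact h _ fun y => Subtype.ext (by simpa using hG y)
  · intro h
    rw [inL_iff_p hr hrn]
    intro k
    let G := ULift.{u} (P k n fun _ => r)
    let e : G ≃* P k n fun _ => r := MulEquiv.ulift.{0, u}
    let y : Fin k → G := fun i => e.symm (QuotientGroup.mk (FreeGroup.of i))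
    have hG : ∀ x : G, x ^ n = 1 := fun x => by
      apply ULift.ext
      exact p_exp k n (fun _ => r) x.down
    have hy : ∀ i, y i ^ r = 1 := fun i => by
      change e.symm _ ^ r = 1
      rw [← map_pow, p_of k n (fun _ => r) i, map_one]
    have h1 := (lf_iSup (fun i : Fin k => Subgroup.normalClosure {y i})
      (fun i => Subgroup.normalClosure_normal) (fun i => h G hG (y i) (hy i)) Finset.univ).2
    have h2 : (⨆ i ∈ (Finset.univ : Finset (Fin k)), Subgroup.normalClosure {y i}) = ⊤ := by
      rw [eq_top_iff]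
      have h3 : Subgroup.closure (Set.range y) = ⊤ := by
        have h4 : Set.range y = e.symm '' (Set.range fun i : Fin k =>
            (QuotientGroup.mk (FreeGroup.of i) : P k n fun _ => r)) := by
          rw [← Set.range_comp]
          rfl
        rw [h4]
        have h5 := MonoidHom.map_closure (e.symm.toMonoidHom) (Set.range fun i : Fin k =>
            (QuotientGroup.mk (FreeGroup.of i) : P k n fun _ => r))
        rw [quot_gen] at h5
        refine h5.symm.trans ?_
        rw [← MonoidHom.range_eq_map, MonoidHom.range_eq_top]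
        exact e.symm.surjective
      rw [← h3, Subgroup.closure_le]
      rintro _ ⟨i, rfl⟩
      have h5 : Subgroup.normalClosure {y i} ≤
          ⨆ i ∈ (Finset.univ : Finset (Fin k)), Subgroup.normalClosure {y i} :=
        le_iSup₂_of_le (f := fun i (_ : i ∈ (Finset.univ : Finset (Fin k))) =>
          Subgroup.normalClosure {y i}) i (Finset.mem_univ i) le_rfl
      exact h5 (Subgroup.subset_normalClosure rfl)
    rw [h2] at h1
    exact h1.of_fg ((Subgroup.topEquiv (G := G)).symm.toMonoidHom.comp e.symm.toMonoidHom)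
      ((Subgroup.topEquiv (G := G)).symm.injective.comp e.symm.injective)

end Pool.Agent.U613.PO
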