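import Pool.Agent.U613.PO.Main

/-!
# The alternating group of degree four
-/

set_option autoImplicit false

namespace Pool.Agent.U613.PO

open Equiv

/-- the involution -/
def a2 : alternatingGroup (Fin 4) := ⟨swap 0 1 * swap 2 3, by
  rw [Perm.mem_alternatingGroup]; decide⟩

/-- the element of order three -/
def a3 : alternatingGroup (Fin 4) := ⟨swap 0 1 * swap 1 2, by
  rw [Perm.mem_alternatingGroup]; decide⟩

set_option maxRecDepth 100000 in
theorem a_words : ∀ a : alternatingGroup (Fin 4), ∃ i j : Fin 3, ∃ e l : Fin 2,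
    a = a3 ^ (i : ℕ) * a2 ^ (e : ℕ) * a3 ^ (j : ℕ) * a2 ^ (l : ℕ) := by
  decide

set_option maxRecDepth 100000 in
theorem a_exp : ∀ a : alternatingGroup (Fin 4), a ^ 6 = 1 := by decide

theorem a_card : Nat.card (alternatingGroup (Fin 4)) = 12 := by
  rw [Nat.card_eq_fintype_card]
  decide

theorem a2_order : orderOf a2 = 2 := orderOf_eq_prime (by decide) (by decide)

theorem a3_order : orderOf a3 = 3 := orderOf_eq_prime (by decide) (by decide)

theorem a_gen : Subgroup.closure (Set.range ![a2, a3]) = ⊤ := by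
  rw [eq_top_iff]
  rintro a -
  obtain ⟨i, j, e, l, rfl⟩ := a_words a
  have h2 : a2 ∈ Subgroup.closure (Set.range ![a2, a3]) := Subgroup.subset_closure ⟨0, rfl⟩
  have h3 : a3 ∈ Subgroup.closure (Set.range ![a2, a3]) := Subgroup.subset_closure ⟨1, rfl⟩
  exact mul_mem (mul_mem (mul_mem (pow_mem h3 _) (pow_mem h2 _)) (pow_mem h3 _)) (pow_mem h2 _)

/-- an involution and an element of order three -/
theorem modular (m : ℕ) :
    12 * Nat.card (B 3 m) ∣ Nat.card (P 2 (6 * m) ![2, 3]) := by
  have h := transfer (m := m) (ρ := 3) ![a2, a3] a_gen ![2, 3] (fun i => by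
    right
    fin_cases i
    · exact a2_order.symm
    · exact a3_order.symm) a_exp (by rw [a_card]; simp [Fin.sum_univ_succ])
  rwa [a_card] at h

end Pool.Agent.U613.PO
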