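import Mathlib

/-!
# Locally finite groups: extensions and joins of normal subgroups
-/

set_option autoImplicit false

namespace Pool.Agent.U613.PO

universe u v

/-- locally finite -/
def LF (G : Type u) [Group G] : Prop := ∀ S : Set G, S.Finite → Finite (Subgroup.closure S)

theorem LF.of_fg {G : Type u} [Group G] (h : LF G) {K : Type v} [Group K] [Group.FG K] (f : K →* G)
    (hf : Function.Injective f) : Finite K := by
  obtain ⟨S, hS, hSf⟩ := Group.fg_iff.1 (inferInstance : Group.FG K)
  have h1 : Finite (Subgroup.closure (f '' S)) := h _ (hSf.image f)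
  rw [← MonoidHom.map_closure, hS] at h1
  have h2 : Finite f.range := by rwa [← MonoidHom.range_eq_map] at h1
  exact Finite.of_injective f.rangeRestrict (MonoidHom.rangeRestrict_injective_iff.2 hf)

theorem LF.surj {G : Type u} {K : Type v} [Group G] [Group K] (h : LF G) (f : G →* K)
    (hf : Function.Surjective f) : LF K := by
  intro S hS
  have h1 : Finite (Subgroup.closure (Function.surjInv hf '' S)) := h _ (hS.image _)
  have h2 : (Subgroup.closure (Function.surjInv hf '' S)).map f = Subgroup.closure S := by
    rw [MonoidHom.map_closure, Set.image_image]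
    simp only [Function.surjInv_eq, Set.image_id']
  rw [← h2]
  exact Finite.of_surjective _
    (f.subgroupMap_surjective (Subgroup.closure (Function.surjInv hf '' S)))

theorem LF.inj {G : Type u} {K : Type v} [Group G] [Group K] (h : LF G) (f : K →* G)
    (hf : Function.Injective f) : LF K := by
  intro S hS
  have : Group.FG (Subgroup.closure S) := by
    have : Finite S := hS
    infer_instance
  exact h.of_fg (f.comp (Subgroup.closure S).subtype) (hf.comp Subtype.coe_injective)

theorem lf_ext {G : Type u} [Group G] (N : Subgroup G) [N.Normal] (hN : LF N) (hQ : LF (G ⧸ N)) :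
    LF G := by
  intro S hS
  have hfg : Group.FG (Subgroup.closure S) := by
    have : Finite S := hS
    infer_instance
  let f : Subgroup.closure S →* G ⧸ N := (QuotientGroup.mk' N).comp (Subgroup.closure S).subtype
  have hr : Finite f.range := by
    have h1 : f.range = Subgroup.closure (QuotientGroup.mk' N '' S) := by
      rw [MonoidHom.range_comp, Subgroup.range_subtype, MonoidHom.map_closure]
    rw [h1]
    exact hQ _ (hS.image _)
  have hq : Finite (Subgroup.closure S ⧸ f.ker) :=
    Finite.of_equiv _ (QuotientGroup.quotientKerEquivRange f).symm.toEquiv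
  have hfi : f.ker.FiniteIndex := Subgroup.finiteIndex_of_finite_quotient
  have hkfg : Group.FG f.ker := Subgroup.fg_of_index_ne_zero _
  have hk : Finite f.ker := by
    refine hN.of_fg (K := f.ker) ⟨⟨fun h => ⟨((h : Subgroup.closure S) : G), ?_⟩, rfl⟩,
      fun a b => rfl⟩ ?_
    · have := h.2
      rwa [MonoidHom.mem_ker, MonoidHom.comp_apply, QuotientGroup.mk'_apply,
        QuotientGroup.eq_one_iff] at this
    · intro a b hab
      have := congrArg (fun z : N => (z : G)) hab
      exact Subtype.ext (Subtype.ext this)
  apply Nat.finite_of_card_ne_zero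
  rw [Subgroup.card_eq_card_quotient_mul_card_subgroup f.ker]
  exact mul_ne_zero Nat.card_pos.ne' Nat.card_pos.ne'

theorem lf_sup {G : Type u} [Group G] (M N : Subgroup G) [M.Normal] [N.Normal] (hM : LF M)
    (hN : LF N) : LF (M ⊔ N : Subgroup G) := by
  refine lf_ext (M.subgroupOf (M ⊔ N)) ?_ ?_
  · exact hM.inj (Subgroup.subgroupOfEquivOfLe (le_sup_left : M ≤ M ⊔ N)).toMonoidHom
      (Subgroup.subgroupOfEquivOfLe (le_sup_left : M ≤ M ⊔ N)).injective
  · refine hN.surj ((QuotientGroup.mk' _).comp (Subgroup.inclusion le_sup_right)) ?_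
    intro q
    obtain ⟨⟨g, hg⟩, rfl⟩ := QuotientGroup.mk_surjective q
    have hg' : g ∈ ((N ⊔ M : Subgroup G) : Set G) := by
      rw [sup_comm]
      exact hg
    rw [Subgroup.mul_normal] at hg'
    obtain ⟨y, hy, z, hz, rfl⟩ := hg'
    refine ⟨⟨y, hy⟩, ?_⟩
    rw [MonoidHom.comp_apply, QuotientGroup.mk'_apply, QuotientGroup.eq, Subgroup.mem_subgroupOf]
    change y⁻¹ * (y * z) ∈ M
    rwa [inv_mul_cancel_left]

/-- the join of finitely many locally finite normal subgroups -/
theorem lf_iSup {G : Type u} [Group G] {ι : Type v} (N : ι → Subgroup G) (hn : ∀ i, (N i).Normal)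
    (hN : ∀ i, LF (N i)) (s : Finset ι) :
    (⨆ i ∈ s, N i).Normal ∧ LF (⨆ i ∈ s, N i : Subgroup G) := by
  classical
  induction s using Finset.induction_on with
  | empty =>
    have e : (⨆ i ∈ (∅ : Finset ι), N i) = ⊥ := by simp
    rw [e]
    exact ⟨inferInstance, fun S _ => inferInstance⟩
  | insert a s ha ih =>
    rw [Finset.iSup_insert]
    have h1 := hn a
    have h2 := ih.1
    exact ⟨inferInstance, lf_sup _ _ (hN a) ih.2⟩

/-- a finite subset of a closure lies in the closure of a finite subset -/
theorem exists_finite {G : Type u} [Group G] (A : Set G) {x : G} (hx : x ∈ Subgroup.closure A) :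
    ∃ F : Set G, F.Finite ∧ F ⊆ A ∧ x ∈ Subgroup.closure F := by
  induction hx using Subgroup.closure_induction with
  | mem y hy => exact ⟨{y}, Set.finite_singleton y, by simpa using hy, Subgroup.subset_closure rfl⟩
  | one => exact ⟨∅, Set.finite_empty, Set.empty_subset _, one_mem _⟩
  | mul y z _ _ h1 h2 =>
    obtain ⟨F, a1, a2, a3⟩ := h1
    obtain ⟨E, b1, b2, b3⟩ := h2
    exact ⟨F ∪ E, a1.union b1, Set.union_subset a2 b2,
      mul_mem (Subgroup.closure_mono Set.subset_union_left a3)
        (Subgroup.closure_mono Set.subset_union_right b3)⟩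
  | inv y _ h1 =>
    obtain ⟨F, a1, a2, a3⟩ := h1
    exact ⟨F, a1, a2, inv_mem a3⟩

/-- a subgroup generated by a set `A` is locally finite if its finite subsets generate finite
groups -/
theorem lf_closure {G : Type u} [Group G] (A : Set G)
    (h : ∀ F : Set G, F.Finite → F ⊆ A → Finite (Subgroup.closure F)) :
    LF (Subgroup.closure A) := by
  intro S hS
  choose F h1 h2 h3 using fun x : Subgroup.closure A => exists_finite A x.2
  have h4 : (⋃ x ∈ S, F x).Finite := hS.biUnion fun x _ => h1 x
  have h5 := h _ h4 (Set.iUnion₂_subset fun x _ => h2 x)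
  have h6 : (Subgroup.closure S).map (Subgroup.closure A).subtype ≤
      Subgroup.closure (⋃ x ∈ S, F x) := by
    rw [MonoidHom.map_closure, Subgroup.closure_le]
    rintro _ ⟨x, hx, rfl⟩
    exact Subgroup.closure_mono (Set.subset_biUnion_of_mem hx) (h3 x)
  have h7 : Finite ((Subgroup.closure S).map (Subgroup.closure A).subtype) :=
    Finite.Set.subset (Subgroup.closure (⋃ x ∈ S, F x) : Set G) h6
  exact Finite.of_equiv _ ((Subgroup.closure S).equivMapOfInjective (Subgroup.closure A).subtype
    (Subgroup.closure A).subtype_injective).symm.toEquiv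

end Pool.Agent.U613.PO
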