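import Mathlib

/-!
# Labelled Cayley graphs and generalised wreath products

`W C Q` is the regular wreath product of the group `Q` by the group `C`.  For labels `l : C → I → Q`
of the edges `c → c * x i` of the Cayley graph of `C` the elements `X i = (l · i, x i)` multiply like
paths of the graph, and if every vertex is reached from `1` by a path with trivial labels, then the
evaluation at `1` maps the base part of the group generated by the `X i` onto a group which contains
all labels.
-/

set_option autoImplicit false

namespace Pool.Agent.U613.PO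

universe u v w

/-- the action of `C` on `C → Q` by right translations of the argument -/
def act (C : Type u) (Q : Type v) [Group C] [Group Q] : C →* MulAut (C → Q) where
  toFun a :=
    { toFun := fun g c => g (c * a)
      invFun := fun g c => g (c * a⁻¹)
      left_inv := fun g => by funext c; simp
      right_inv := fun g => by funext c; simp
      map_mul' := fun g h => rfl }
  map_one' := by ext g c; simp
  map_mul' a b := by ext g c; simp [mul_assoc]

/-- the regular wreath product -/
abbrev W (C : Type u) (Q : Type v) [Group C] [Group Q] : Type (max u v) :=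
  SemidirectProduct (C → Q) C (act C Q)

section

variable {C : Type u} {Q : Type v} [Group C] [Group Q]

theorem W.mul_left_apply (a b : W C Q) (c : C) : (a * b).left c = a.left c * b.left (c * a.right) :=
  rfl

theorem W.inv_left_apply (a : W C Q) (c : C) : (a⁻¹).left c = (a.left (c * a.right⁻¹))⁻¹ := rfl

theorem W.pow_right (a : W C Q) (n : ℕ) : (a ^ n).right = a.right ^ n := by
  induction n with
  | zero => rw [pow_zero, pow_zero]; rfl
  | succ n ih => rw [pow_succ, SemidirectProduct.mul_right, ih, pow_succ]

theorem W.pow_left_of_right {a : W C Q} (h : a.right = 1) (n : ℕ) (c : C) :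
    (a ^ n).left c = a.left c ^ n := by
  induction n with
  | zero => rw [pow_zero, pow_zero]; rfl
  | succ n ih =>
    rw [pow_succ, W.mul_left_apply, ih, W.pow_right, h, one_pow, mul_one, pow_succ]

/-- the exponent of the wreath product -/
theorem W.exp {c m : ℕ} (hC : ∀ a : C, a ^ c = 1) (hQ : ∀ a : Q, a ^ m = 1) (a : W C Q) :
    a ^ (c * m) = 1 := by
  have h1 : (a ^ c).right = 1 := by rw [W.pow_right, hC]
  rw [pow_mul]
  apply SemidirectProduct.ext
  · funext b
    rw [W.pow_left_of_right h1, hQ]
    rfl
  · rw [W.pow_right, h1, one_pow]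
    rfl

/-- the elements given by the labels -/
def X {I : Type w} (x : I → C) (l : C → I → Q) (i : I) : W C Q := ⟨fun c => l c i, x i⟩

/-- the base part -/
def base (H : Subgroup (W C Q)) : Subgroup H := (SemidirectProduct.rightHom.comp H.subtype).ker

theorem mem_base {H : Subgroup (W C Q)} (h : H) : h ∈ base H ↔ (h : W C Q).right = 1 := Iff.rfl

/-- the evaluation at `1` -/
def ev (H : Subgroup (W C Q)) : base H →* Q where
  toFun h := (h : W C Q).left 1
  map_one' := rfl
  map_mul' a b := by
    have h : ((a : H) : W C Q).right = 1 := a.2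
    change ((a : W C Q) * (b : W C Q)).left 1 = _
    rw [W.mul_left_apply, h, mul_one]

variable {I : Type w} (x : I → C) (l : C → I → Q)

/-- the group generated by the `X i` -/
abbrev Hg : Subgroup (W C Q) := Subgroup.closure (Set.range (X x l))

theorem exists_path (d : C → ℕ) (ht : ∀ c : C, c ≠ 1 → ∃ a i, a * x i = c ∧ l a i = 1 ∧ d a < d c)
    (c : C) : ∃ t ∈ Hg x l, t.right = c ∧ t.left 1 = 1 := by
  induction hn : d c using Nat.strong_induction_on generalizing c with
  | _ n ih =>
    by_cases hc : c = 1
    · exact ⟨1, one_mem _, hc.symm, rfl⟩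
    · obtain ⟨a, i, h1, h2, h3⟩ := ht c hc
      obtain ⟨t, h4, h5, h6⟩ := ih (d a) (hn ▸ h3) a rfl
      refine ⟨t * X x l i, mul_mem h4 (Subgroup.subset_closure ⟨i, rfl⟩), ?_, ?_⟩
      · rw [SemidirectProduct.mul_right, h5]
        exact h1
      · rw [W.mul_left_apply, h6, h5, one_mul, one_mul]
        exact h2

/-- the evaluation is onto, and so is the map to `C` -/
theorem ev_surj (d : C → ℕ) (ht : ∀ c : C, c ≠ 1 → ∃ a i, a * x i = c ∧ l a i = 1 ∧ d a < d c)
    (hg : Subgroup.closure (Set.range fun p : C × I => l p.1 p.2) = ⊤) :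
    Function.Surjective (ev (Hg x l)) := by
  rw [← MonoidHom.range_eq_top, eq_top_iff, ← hg, Subgroup.closure_le]
  rintro _ ⟨⟨c, i⟩, rfl⟩
  obtain ⟨t, h1, h2, h3⟩ := exists_path x l d ht c
  obtain ⟨s, h4, h5, h6⟩ := exists_path x l d ht (c * x i)
  have hH : t * X x l i * s⁻¹ ∈ Hg x l :=
    mul_mem (mul_mem h1 (Subgroup.subset_closure ⟨i, rfl⟩)) (inv_mem h4)
  have hr : (t * X x l i * s⁻¹).right = 1 := by
    rw [SemidirectProduct.mul_right, SemidirectProduct.mul_right, SemidirectProduct.inv_right, h2,
      h5]
    exact mul_inv_cancel (c * x i)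
  refine ⟨⟨⟨_, hH⟩, hr⟩, ?_⟩
  change (t * X x l i * s⁻¹).left 1 = l c i
  have hr2 : (t * X x l i).right = c * x i := by
    rw [SemidirectProduct.mul_right, h2]
    rfl
  rw [W.mul_left_apply, W.inv_left_apply, hr2, h5, one_mul, mul_inv_cancel, h6, inv_one, mul_one,
    W.mul_left_apply, h3, one_mul, h2, one_mul]
  rfl

theorem right_surj (d : C → ℕ) (ht : ∀ c : C, c ≠ 1 → ∃ a i, a * x i = c ∧ l a i = 1 ∧ d a < d c) :
    Function.Surjective (SemidirectProduct.rightHom.comp (Hg x l).subtype : Hg x l →* C) := by
  intro c
  obtain ⟨t, h1, h2, h3⟩ := exists_path x l d ht c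
  exact ⟨⟨t, h1⟩, h2⟩

/-- `|C| |Q|` divides the order of the group generated by the `X i` -/
theorem card_dvd (d : C → ℕ) (ht : ∀ c : C, c ≠ 1 → ∃ a i, a * x i = c ∧ l a i = 1 ∧ d a < d c)
    (hg : Subgroup.closure (Set.range fun p : C × I => l p.1 p.2) = ⊤) :
    Nat.card C * Nat.card Q ∣ Nat.card (Hg x l) := by
  rw [Subgroup.card_eq_card_quotient_mul_card_subgroup (base (Hg x l))]
  have e : Nat.card (Hg x l ⧸ base (Hg x l)) = Nat.card C :=
    Nat.card_congr (QuotientGroup.quotientKerEquivOfSurjective _ (right_surj x l d ht)).toEquiv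
  rw [e]
  exact mul_dvd_mul_left _ (Subgroup.card_dvd_of_surjective _ (ev_surj x l d ht hg))

/-- a cycle whose label product is trivial at one place has trivial label product everywhere -/
theorem cycle_shift {a : W C Q} {s : ℕ} (hs : a.right ^ s = 1) {c : C} (h : (a ^ s).left c = 1)
    (j : ℕ) : (a ^ s).left (c * a.right ^ j) = 1 := by
  induction j with
  | zero => simpa using h
  | succ j ih =>
    have h1 : a * a ^ s = a ^ s * a := (Commute.self_pow a s).eq
    have h2 := congrArg (fun b : W C Q => b.left (c * a.right ^ j)) h1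
    simp only [W.mul_left_apply] at h2
    rw [W.pow_right, hs, mul_one, ih, one_mul, mul_eq_left] at h2
    rw [pow_succ, ← mul_assoc]
    exact h2

end

end Pool.Agent.U613.PO
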