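import Pool.Agent.U613.PO.Tree
import Pool.Agent.U613.PO.LF

/-!
# Transfer from groups generated by elements of given orders to free Burnside groups
-/

set_option autoImplicit false

namespace Pool.Agent.U613.PO

universe u v

/-- The free Burnside group. -/
abbrev B (m n : ℕ) : Type :=
  FreeGroup (Fin m) ⧸ Subgroup.normalClosure (Set.range fun w : FreeGroup (Fin m) => w ^ n)

/-- The largest group of exponent dividing `n` generated by elements `y i`, `i : Fin k`, with
`y i ^ r i = 1`. -/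
abbrev P (k n : ℕ) (r : Fin k → ℕ) : Type :=
  FreeGroup (Fin k) ⧸ Subgroup.normalClosure
    ((Set.range fun w : FreeGroup (Fin k) => w ^ n) ∪
      Set.range fun i : Fin k => FreeGroup.of i ^ r i)

/-- `n ∈ 𝓛` -/
def InL (n : ℕ) : Prop := ∀ (G : Type u) [Group G], (∀ x : G, x ^ n = 1) → LF G

section basics

theorem b_exp (k n : ℕ) (x : B k n) : x ^ n = 1 := by
  obtain ⟨w, rfl⟩ := QuotientGroup.mk_surjective x
  rw [← QuotientGroup.mk_pow, QuotientGroup.eq_one_iff]
  exact Subgroup.subset_normalClosure ⟨w, rfl⟩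

theorem p_exp (k n : ℕ) (r : Fin k → ℕ) (x : P k n r) : x ^ n = 1 := by
  obtain ⟨w, rfl⟩ := QuotientGroup.mk_surjective x
  rw [← QuotientGroup.mk_pow, QuotientGroup.eq_one_iff]
  exact Subgroup.subset_normalClosure (Or.inl ⟨w, rfl⟩)

theorem p_of (k n : ℕ) (r : Fin k → ℕ) (i : Fin k) :
    (QuotientGroup.mk (FreeGroup.of i) : P k n r) ^ r i = 1 := by
  rw [← QuotientGroup.mk_pow, QuotientGroup.eq_one_iff]
  exact Subgroup.subset_normalClosure (Or.inr ⟨i, rfl⟩)

theorem quot_gen {k : ℕ} (N : Subgroup (FreeGroup (Fin k))) [N.Normal] :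
    Subgroup.closure (Set.range fun i : Fin k =>
      (QuotientGroup.mk (FreeGroup.of i) : FreeGroup (Fin k) ⧸ N)) = ⊤ := by
  rw [eq_top_iff]
  rintro x -
  obtain ⟨w, rfl⟩ := QuotientGroup.mk_surjective x
  induction w using FreeGroup.induction_on with
  | C1 => exact one_mem _
  | of i => exact Subgroup.subset_closure ⟨i, rfl⟩
  | inv_of i hi => exact inv_mem hi
  | mul a b ha hb => exact mul_mem ha hb

theorem p_onto {k n : ℕ} {r : Fin k → ℕ} {G : Type u} [Group G] (hG : ∀ x : G, x ^ n = 1)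
    (y : Fin k → G) (hy : ∀ i, y i ^ r i = 1) :
    ∃ f : P k n r →* G, f.range = Subgroup.closure (Set.range y) := by
  let f0 : FreeGroup (Fin k) →* G := FreeGroup.lift y
  have hker : Subgroup.normalClosure ((Set.range fun w : FreeGroup (Fin k) => w ^ n) ∪
      Set.range fun i : Fin k => FreeGroup.of i ^ r i) ≤ f0.ker := by
    apply Subgroup.normalClosure_le_normal
    rintro _ (⟨w, rfl⟩ | ⟨i, rfl⟩)
    · rw [SetLike.mem_coe, MonoidHom.mem_ker, map_pow, hG]
    · rw [SetLike.mem_coe, MonoidHom.mem_ker, map_pow, FreeGroup.lift_apply_of, hy]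
  refine ⟨QuotientGroup.lift _ f0 (fun w hw => hker hw), ?_⟩
  have e1 : (QuotientGroup.lift _ f0 (fun w hw => hker hw) : P k n r →* G).range = f0.range := by
    ext g
    constructor
    · rintro ⟨w, rfl⟩
      obtain ⟨w, rfl⟩ := QuotientGroup.mk_surjective w
      exact ⟨w, rfl⟩
    · rintro ⟨w, rfl⟩
      exact ⟨(w : P k n r), rfl⟩
  rw [e1]
  exact FreeGroup.range_lift_eq_closure

theorem b_onto {k n : ℕ} {G : Type u} [Group G] (hG : ∀ x : G, x ^ n = 1)
    (y : Fin k → G) : ∃ f : B k n →* G, f.range = Subgroup.closure (Set.range y) := by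
  let f0 : FreeGroup (Fin k) →* G := FreeGroup.lift y
  have hker : Subgroup.normalClosure (Set.range fun w : FreeGroup (Fin k) => w ^ n) ≤ f0.ker := by
    apply Subgroup.normalClosure_le_normal
    rintro _ ⟨w, rfl⟩
    rw [SetLike.mem_coe, MonoidHom.mem_ker, map_pow, hG]
  refine ⟨QuotientGroup.lift _ f0 (fun w hw => hker hw), ?_⟩
  have e1 : (QuotientGroup.lift _ f0 (fun w hw => hker hw) : B k n →* G).range = f0.range := by
    ext g
    constructor
    · rintro ⟨w, rfl⟩
      obtain ⟨w, rfl⟩ := QuotientGroup.mk_surjective w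
      exact ⟨w, rfl⟩
    · rintro ⟨w, rfl⟩
      exact ⟨(w : B k n), rfl⟩
  rw [e1]
  exact FreeGroup.range_lift_eq_closure

theorem b_mono {j k n : ℕ} (h : j ≤ k) (hB : Finite (B k n)) : Finite (B j n) := by
  let y : Fin k → B j n := fun i =>
    if hi : (i : ℕ) < j then QuotientGroup.mk (FreeGroup.of ⟨i, hi⟩) else 1
  obtain ⟨f, hf⟩ := b_onto (b_exp j n) y
  have h1 : Subgroup.closure (Set.range y) = ⊤ := by
    rw [eq_top_iff, ← quot_gen (k := j), Subgroup.closure_le]
    rintro _ ⟨i, rfl⟩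
    refine Subgroup.subset_closure ⟨⟨i, lt_of_lt_of_le i.2 h⟩, ?_⟩
    change (if hi : (i : ℕ) < j then (QuotientGroup.mk (FreeGroup.of ⟨i, hi⟩) : B j n) else 1) = _
    rw [dif_pos i.2]
  rw [h1, MonoidHom.range_eq_top] at hf
  exact Finite.of_surjective f hf

theorem finite_closure_of_b {k n : ℕ} (hB : Finite (B k n)) {G : Type u} [Group G]
    (hG : ∀ x : G, x ^ n = 1) (y : Fin k → G) : Finite (Subgroup.closure (Set.range y)) := by
  obtain ⟨f, hf⟩ := b_onto hG y
  rw [← hf]
  exact Finite.of_surjective _ f.rangeRestrict_surjective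

theorem finite_closure_of_p {k n : ℕ} {r : Fin k → ℕ} (hP : Finite (P k n r)) {G : Type u}
    [Group G] (hG : ∀ x : G, x ^ n = 1) (y : Fin k → G) (hy : ∀ i, y i ^ r i = 1) :
    Finite (Subgroup.closure (Set.range y)) := by
  obtain ⟨f, hf⟩ := p_onto hG y hy
  rw [← hf]
  exact Finite.of_surjective _ f.rangeRestrict_surjective

theorem inL_of_b {n : ℕ} (h : ∀ k, Finite (B k n)) : InL.{u} n := by
  intro G _ hG S hS
  obtain ⟨k, y, -, rfl⟩ := hS.fin_param
  exact finite_closure_of_b (h k) hG y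

/-- finitely generated groups of exponent `n ∈ 𝓛` -/
theorem InL.finite {n : ℕ} (h : InL.{u} n) {G : Type} [Group G] (hG : ∀ x : G, x ^ n = 1)
    [Group.FG G] : Finite G := by
  have h1 : LF (ULift.{u} G) := h _ (fun x => by
    apply ULift.ext
    exact hG x.down)
  exact h1.of_fg (MulEquiv.ulift.{0, u} (α := G)).symm.toMonoidHom
    (MulEquiv.ulift.{0, u} (α := G)).symm.injective

instance quot_fg {k : ℕ} (N : Subgroup (FreeGroup (Fin k))) [N.Normal] :
    Group.FG (FreeGroup (Fin k) ⧸ N) :=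
  Group.fg_iff.2 ⟨_, quot_gen N, Set.finite_range _⟩

end basics

/-- Transfer. -/
theorem transfer {C : Type} [Group C] [Finite C] {k : ℕ} (x : Fin k → C)
    (hx : Subgroup.closure (Set.range x) = ⊤) (r : Fin k → ℕ)
    (hr : ∀ i, r i = 0 ∨ r i = orderOf (x i)) {c m ρ : ℕ} (hc : ∀ a : C, a ^ c = 1)
    (hρ : ρ + Nat.card C + ∑ i, Nat.card C / r i = k * Nat.card C + 1) :
    Nat.card C * Nat.card (B ρ m) ∣ Nat.card (P k (c * m) r) := by
  classical
  let u : Finset (Fin k) := Finset.univ.filter fun i => r i ≠ 0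
  have hsum : ∑ i ∈ u, Nat.card C / orderOf (x i) = ∑ i, Nat.card C / r i := by
    rw [Finset.sum_filter]
    refine Finset.sum_congr rfl fun i _ => ?_
    split_ifs with h
    · rw [(hr i).resolve_left h]
    · rw [not_not.1 h, Nat.div_zero]
  have hF : Nat.card (Fr x hx u) = ρ := by
    have h1 := fr_card x hx u
    rw [hsum] at h1
    omega
  let e : Fr x hx u ≃ Fin ρ := Finite.equivFinOfCardEq hF
  let g : Fr x hx u → B ρ m := fun a => QuotientGroup.mk (FreeGroup.of (e a))
  have hg : Subgroup.closure (Set.range fun p : C × Fin k => lab x hx u g p.1 p.2) = ⊤ := by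
    rw [eq_top_iff, ← quot_gen (k := ρ), Subgroup.closure_le]
    rintro _ ⟨i, rfl⟩
    refine Subgroup.subset_closure ⟨(e.symm i).1, ?_⟩
    change lab x hx u g (e.symm i).1.1 (e.symm i).1.2 = _
    rw [lab_fr]
    change QuotientGroup.mk (FreeGroup.of (e (e.symm i))) = _
    rw [Equiv.apply_symm_apply]
  have ht : ∀ a : C, a ≠ 1 → ∃ b i, b * x i = a ∧ lab x hx u g b i = 1 ∧
      dist x hx b < dist x hx a := by
    intro a ha
    refine ⟨(par x hx ⟨a, ha⟩).1, (par x hx ⟨a, ha⟩).2, par_mul x hx ⟨a, ha⟩, ?_, ?_⟩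
    · exact lab_tr x hx u g ⟨⟨a, ha⟩, rfl⟩
    · have := par_dist x hx ⟨a, ha⟩
      change dist x hx a = _ at this
      omega
  have h1 := card_dvd x (lab x hx u g) (dist x hx) ht hg
  have hy : ∀ i, X x (lab x hx u g) i ^ r i = 1 := by
    intro i
    by_cases h : r i = 0
    · rw [h, pow_zero]
    · rw [(hr i).resolve_left h]
      exact lab_pow x hx u g (Finset.mem_filter.2 ⟨Finset.mem_univ _, h⟩)
  obtain ⟨f, hf⟩ := p_onto (r := r) (W.exp (m := m) hc (b_exp ρ m)) (X x (lab x hx u g)) hy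
  refine h1.trans ?_
  change Nat.card (Subgroup.closure (Set.range (X x (lab x hx u g)))) ∣ _
  rw [← hf]
  exact Subgroup.card_dvd_of_surjective _ f.rangeRestrict_surjective

theorem transfer_finite {C : Type} [Group C] [Finite C] {k : ℕ} (x : Fin k → C)
    (hx : Subgroup.closure (Set.range x) = ⊤) (r : Fin k → ℕ)
    (hr : ∀ i, r i = 0 ∨ r i = orderOf (x i)) {c m ρ : ℕ} (hc : ∀ a : C, a ^ c = 1)
    (hρ : ρ + Nat.card C + ∑ i, Nat.card C / r i = k * Nat.card C + 1)
    (hP : Finite (P k (c * m) r)) : Finite (B ρ m) := by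
  have h1 := transfer x hx r hr hc hρ (m := m)
  apply Nat.finite_of_card_ne_zero
  intro h0
  rw [h0, mul_zero, zero_dvd_iff] at h1
  exact Nat.card_pos.ne' h1

section abelian

variable {k : ℕ} (r : Fin k → ℕ) [∀ i, NeZero (r i)]

/-- the direct product of cyclic groups -/
abbrev Cy : Type := ∀ i, Multiplicative (ZMod (r i))

/-- the generators -/
def cg (i : Fin k) : Cy r := Pi.mulSingle i (Multiplicative.ofAdd 1)

theorem cg_gen : Subgroup.closure (Set.range (cg r)) = ⊤ := by
  rw [eq_top_iff]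
  rintro a -
  have h1 : a = ∏ i, Pi.mulSingle i (a i) := (Finset.univ_prod_mulSingle a).symm
  rw [h1]
  refine Subgroup.prod_mem _ fun i _ => ?_
  have h2 : Pi.mulSingle i (a i) = cg r i ^ (Multiplicative.toAdd (a i)).val := by
    unfold cg
    rw [← Pi.mulSingle_pow]
    congr 1
    apply Multiplicative.toAdd.injective
    rw [toAdd_pow]
    change _ = (Multiplicative.toAdd (a i)).val • (1 : ZMod (r i))
    rw [nsmul_one, ZMod.natCast_zmod_val]
  rw [h2]
  exact Subgroup.pow_mem _ (Subgroup.subset_closure (Set.mem_range_self i)) _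

omit [∀ i, NeZero (r i)] in
theorem cg_order (i : Fin k) : orderOf (cg r i) = r i := by
  unfold cg
  rw [orderOf_piMulSingle, orderOf_ofAdd_eq_addOrderOf, ZMod.addOrderOf_one]

omit [∀ i, NeZero (r i)] in
theorem cy_card : Nat.card (Cy r) = ∏ i, r i := by
  rw [Nat.card_pi]
  refine Finset.prod_congr rfl fun i _ => ?_
  change Nat.card (ZMod (r i)) = r i
  exact Nat.card_zmod _

omit [∀ i, NeZero (r i)] in
theorem cy_exp {c : ℕ} (hc : ∀ i, r i ∣ c) (a : Cy r) : a ^ c = 1 := by
  funext i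
  obtain ⟨d, rfl⟩ := hc i
  apply Multiplicative.toAdd.injective
  rw [Pi.pow_apply, toAdd_pow]
  change (r i * d) • (Multiplicative.toAdd (a i) : ZMod (r i)) = 0
  rw [mul_nsmul, nsmul_eq_mul (r i), ZMod.natCast_self, zero_mul, nsmul_zero]

/-- elements of orders `r i` -/
theorem abelian {c m ρ : ℕ} (hc : ∀ i, r i ∣ c)
    (hρ : ρ + ∏ i, r i + ∑ i, (∏ i, r i) / r i = k * ∏ i, r i + 1) :
    (∏ i, r i) * Nat.card (B ρ m) ∣ Nat.card (P k (c * m) r) := by
  have h := transfer (m := m) (ρ := ρ) (cg r) (cg_gen r) r (fun i => Or.inr (cg_order r i).symm)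
    (cy_exp r hc) (by rw [cy_card]; exact hρ)
  rwa [cy_card] at h

end abelian

end Pool.Agent.U613.PO
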