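import Pool.Agent.U613.PO.Lab

/-!
# Labels with trivial cycle products

`C` is a finite group generated by `x i`, `i : Fin k`.  A spanning tree of the Cayley graph which is
grown by the positive word length contains no complete cycle `c → c x i → c (x i) ^ 2 → ⋯ → c`, so
in every cycle one may choose an edge outside the tree; its label is determined by the condition that
the product along the cycle is trivial.  All other edges outside the tree can be labelled
arbitrarily.
-/

set_option autoImplicit false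

namespace Pool.Agent.U613.PO

variable {C : Type} [Group C] [Finite C] {k : ℕ} (x : Fin k → C)

/-- a word for `c` -/
def IsW (c : C) (w : List (Fin k)) : Prop := (w.map x).prod = c

theorem exists_word (hx : Subgroup.closure (Set.range x) = ⊤) (c : C) : ∃ w, IsW x c w := by
  have h : c ∈ Submonoid.closure (Set.range x) := by
    have h1 : c ∈ (Subgroup.closure (Set.range x)).toSubmonoid := by
      rw [hx]; exact Subgroup.mem_top c
    rwa [Subgroup.closure_toSubmonoid_of_finite] at h1
  obtain ⟨L, hL, hc⟩ := Submonoid.exists_list_of_mem_closure h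
  clear h
  induction L generalizing c with
  | nil => exact ⟨[], by simpa [IsW] using hc⟩
  | cons y L ih =>
    obtain ⟨w, hw⟩ := ih L.prod (fun z hz => hL z (List.mem_cons_of_mem _ hz)) rfl
    obtain ⟨i, hi⟩ := hL y List.mem_cons_self
    refine ⟨i :: w, ?_⟩
    unfold IsW at hw ⊢
    rw [List.map_cons, List.prod_cons, hw, hi, ← hc, List.prod_cons]

open Classical in
/-- the positive word length -/
noncomputable def dist (hx : Subgroup.closure (Set.range x) = ⊤) (c : C) : ℕ :=
  Nat.find (p := fun n => ∃ w : List (Fin k), w.length = n ∧ IsW x c w) (by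
    obtain ⟨w, hw⟩ := exists_word x hx c
    exact ⟨w.length, w, rfl, hw⟩)

theorem dist_spec (hx : Subgroup.closure (Set.range x) = ⊤) (c : C) :
    ∃ w : List (Fin k), w.length = dist x hx c ∧ IsW x c w := by
  classical
  exact Nat.find_spec (p := fun n => ∃ w : List (Fin k), w.length = n ∧ IsW x c w) _

theorem dist_le (hx : Subgroup.closure (Set.range x) = ⊤) {c : C} {w : List (Fin k)}
    (hw : IsW x c w) : dist x hx c ≤ w.length := by
  classical
  exact Nat.find_min' (p := fun n => ∃ w : List (Fin k), w.length = n ∧ IsW x c w) _ ⟨w, rfl, hw⟩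

theorem exists_parent (hx : Subgroup.closure (Set.range x) = ⊤) {c : C} (hc : c ≠ 1) :
    ∃ e : C × Fin k, e.1 * x e.2 = c ∧ dist x hx c = dist x hx e.1 + 1 := by
  obtain ⟨w, h1, h2⟩ := dist_spec x hx c
  have hne : w ≠ [] := by
    rintro rfl
    exact hc h2.symm
  obtain ⟨w', i, rfl⟩ : ∃ w' i, w = w' ++ [i] :=
    ⟨w.dropLast, w.getLast hne, (List.dropLast_append_getLast hne).symm⟩
  have h3 : (w'.map x).prod * x i = c := by
    have := h2
    unfold IsW at this
    rwa [List.map_append, List.prod_append, List.map_singleton, List.prod_singleton] at this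
  refine ⟨((w'.map x).prod, i), h3, ?_⟩
  have h4 : dist x hx (w'.map x).prod ≤ w'.length := dist_le x hx rfl
  obtain ⟨v, h5, h6⟩ := dist_spec x hx (w'.map x).prod
  have h7 : dist x hx c ≤ (v ++ [i]).length := by
    apply dist_le
    unfold IsW at h6 ⊢
    rw [List.map_append, List.prod_append, List.map_singleton, List.prod_singleton, h6, h3]
  rw [List.length_append, List.length_singleton] at h1 h7
  rw [h5] at h7
  change dist x hx c = dist x hx (w'.map x).prod + 1
  omega

/-- the parent edge -/
noncomputable def par (hx : Subgroup.closure (Set.range x) = ⊤) (c : {c : C // c ≠ 1}) :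
    C × Fin k := (exists_parent x hx c.2).choose

theorem par_mul (hx : Subgroup.closure (Set.range x) = ⊤) (c : {c : C // c ≠ 1}) :
    (par x hx c).1 * x (par x hx c).2 = c := (exists_parent x hx c.2).choose_spec.1

theorem par_dist (hx : Subgroup.closure (Set.range x) = ⊤) (c : {c : C // c ≠ 1}) :
    dist x hx c = dist x hx (par x hx c).1 + 1 := (exists_parent x hx c.2).choose_spec.2

theorem par_inj (hx : Subgroup.closure (Set.range x) = ⊤) : Function.Injective (par x hx) := by
  intro a b h
  apply Subtype.ext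
  rw [← par_mul x hx a, ← par_mul x hx b, h]

/-- the tree -/
def Tr (hx : Subgroup.closure (Set.range x) = ⊤) : Set (C × Fin k) := Set.range (par x hx)

theorem tr_dist (hx : Subgroup.closure (Set.range x) = ⊤) {a : C} {i : Fin k}
    (h : (a, i) ∈ Tr x hx) : dist x hx (a * x i) = dist x hx a + 1 := by
  obtain ⟨c, hc⟩ := h
  have h1 := par_mul x hx c
  have h2 := par_dist x hx c
  rw [hc] at h1 h2
  rw [h1, h2]

theorem tr_card (hx : Subgroup.closure (Set.range x) = ⊤) :
    Nat.card (Tr x hx) + 1 = Nat.card C := by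
  classical
  have := Fintype.ofFinite C
  have h1 : Nat.card (Tr x hx) = Nat.card {c : C // c ≠ 1} :=
    (Nat.card_congr (Equiv.ofInjective _ (par_inj x hx))).symm
  rw [h1, Nat.card_eq_fintype_card, Nat.card_eq_fintype_card, Fintype.card_subtype_compl,
    Fintype.card_subtype_eq]
  exact Nat.sub_add_cancel (Fintype.card_pos_iff.2 ⟨1⟩)

/-- no cycle lies in the tree -/
theorem exists_not_tr (hx : Subgroup.closure (Set.range x) = ⊤) (i : Fin k) (c : C) :
    ∃ j : ℕ, (c * x i ^ j, i) ∉ Tr x hx := by
  by_contra hcon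
  push Not at hcon
  have h : ∀ j : ℕ, dist x hx (c * x i ^ j) = dist x hx c + j := by
    intro j
    induction j with
    | zero => rw [pow_zero, mul_one, add_zero]
    | succ j ih =>
      rw [pow_succ, ← mul_assoc, tr_dist x hx (hcon j), ih, add_assoc]
  have h2 := h (orderOf (x i))
  rw [pow_orderOf_eq_one, mul_one] at h2
  have := orderOf_pos (x i)
  omega

/-- the chosen vertex of a coset of `⟨x i⟩` -/
theorem exists_rep (hx : Subgroup.closure (Set.range x) = ⊤) (i : Fin k)
    (q : C ⧸ Subgroup.zpowers (x i)) : ∃ c : C, (c : C ⧸ Subgroup.zpowers (x i)) = q ∧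
      (c, i) ∉ Tr x hx := by
  obtain ⟨c, rfl⟩ := QuotientGroup.mk_surjective q
  obtain ⟨j, hj⟩ := exists_not_tr x hx i c
  exact ⟨c * x i ^ j, QuotientGroup.mk_mul_of_mem c (Subgroup.npow_mem_zpowers (x i) j), hj⟩

/-- the representatives -/
noncomputable def rep (hx : Subgroup.closure (Set.range x) = ⊤) (i : Fin k)
    (q : C ⧸ Subgroup.zpowers (x i)) : C := (exists_rep x hx i q).choose

theorem rep_mk (hx : Subgroup.closure (Set.range x) = ⊤) (i : Fin k)
    (q : C ⧸ Subgroup.zpowers (x i)) :
    (QuotientGroup.mk (rep x hx i q) : C ⧸ Subgroup.zpowers (x i)) = q :=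
  (exists_rep x hx i q).choose_spec.1

theorem rep_not_tr (hx : Subgroup.closure (Set.range x) = ⊤) (i : Fin k)
    (q : C ⧸ Subgroup.zpowers (x i)) : (rep x hx i q, i) ∉ Tr x hx :=
  (exists_rep x hx i q).choose_spec.2

/-- the dependent edges, for the generators in `u` -/
def Dp (hx : Subgroup.closure (Set.range x) = ⊤) (u : Finset (Fin k)) : Set (C × Fin k) :=
  Set.range fun p : Σ i : u, C ⧸ Subgroup.zpowers (x i) => (rep x hx p.1 p.2, (p.1 : Fin k))

theorem dp_card (hx : Subgroup.closure (Set.range x) = ⊤) (u : Finset (Fin k)) :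
    Nat.card (Dp x hx u) = ∑ i ∈ u, Nat.card C / orderOf (x i) := by
  classical
  have hinj : Function.Injective
      (fun p : Σ i : u, C ⧸ Subgroup.zpowers (x i) => (rep x hx p.1 p.2, (p.1 : Fin k))) := by
    rintro ⟨i, q⟩ ⟨j, r⟩ h
    rw [Prod.mk.injEq] at h
    obtain ⟨h1, h2⟩ := h
    have h3 : i = j := Subtype.ext h2
    subst h3
    have h4 : q = r := by
      rw [← rep_mk x hx i q, ← rep_mk x hx i r]
      exact congrArg _ h1
    rw [h4]
  have := Fintype.ofFinite C
  have : ∀ i : u, Fintype (C ⧸ Subgroup.zpowers (x i)) := fun i => Fintype.ofFinite _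
  have h1 : Nat.card (Dp x hx u) = Nat.card (Σ i : u, C ⧸ Subgroup.zpowers (x i)) :=
    (Nat.card_congr (Equiv.ofInjective _ hinj)).symm
  rw [h1, Nat.card_sigma, ← Finset.sum_coe_sort u]
  refine Finset.sum_congr rfl fun i _ => ?_
  have h2 := Subgroup.card_eq_card_quotient_mul_card_subgroup (Subgroup.zpowers (x i))
  rw [Nat.card_zpowers] at h2
  rw [h2, Nat.mul_div_cancel _ (orderOf_pos (x i))]

theorem dp_disj (hx : Subgroup.closure (Set.range x) = ⊤) (u : Finset (Fin k)) :
    Disjoint (Tr x hx) (Dp x hx u) := by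
  rw [Set.disjoint_right]
  rintro _ ⟨⟨i, q⟩, rfl⟩
  exact rep_not_tr x hx i q

theorem mem_dp (hx : Subgroup.closure (Set.range x) = ⊤) (u : Finset (Fin k)) {c : C} {i : Fin k} :
    (c, i) ∈ Dp x hx u ↔ i ∈ u ∧ c = rep x hx i (c : C ⧸ Subgroup.zpowers (x i)) := by
  constructor
  · rintro ⟨⟨j, q⟩, h⟩
    rw [Prod.mk.injEq] at h
    obtain ⟨h1, h2⟩ := h
    subst h2
    refine ⟨j.2, ?_⟩
    rw [← h1, rep_mk]
  · rintro ⟨h1, h2⟩
    refine ⟨⟨⟨i, h1⟩, (c : C ⧸ Subgroup.zpowers (x i))⟩, ?_⟩
    rw [Prod.mk.injEq]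
    exact ⟨h2.symm, rfl⟩

/-- the free edges -/
def Fr (hx : Subgroup.closure (Set.range x) = ⊤) (u : Finset (Fin k)) : Set (C × Fin k) :=
  (Tr x hx ∪ Dp x hx u)ᶜ

theorem fr_card (hx : Subgroup.closure (Set.range x) = ⊤) (u : Finset (Fin k)) :
    Nat.card (Fr x hx u) + Nat.card C + ∑ i ∈ u, Nat.card C / orderOf (x i) =
      k * Nat.card C + 1 := by
  classical
  have := Fintype.ofFinite C
  have h1 : Nat.card (Fr x hx u) + Nat.card (Tr x hx ∪ Dp x hx u : Set (C × Fin k)) =
      Nat.card (C × Fin k) := by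
    rw [Nat.card_coe_set_eq, Nat.card_coe_set_eq, add_comm]
    exact Set.ncard_add_ncard_compl _
  have h2 : Nat.card (Tr x hx ∪ Dp x hx u : Set (C × Fin k)) =
      Nat.card (Tr x hx) + Nat.card (Dp x hx u) := by
    rw [Nat.card_coe_set_eq, Nat.card_coe_set_eq, Nat.card_coe_set_eq]
    exact Set.ncard_union_eq (dp_disj x hx u)
  have h3 := tr_card x hx
  rw [h2, dp_card, Nat.card_prod, Nat.card_fin, mul_comm] at h1
  omega

variable {Q : Type} [Group Q]

open Classical in
/-- the labels before the dependent edges are changed -/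
noncomputable def lab0 (hx : Subgroup.closure (Set.range x) = ⊤) (u : Finset (Fin k))
    (g : Fr x hx u → Q) (c : C) (i : Fin k) : Q :=
  if h : (c, i) ∈ Fr x hx u then g ⟨(c, i), h⟩ else 1

open Classical in
/-- the labels -/
noncomputable def lab (hx : Subgroup.closure (Set.range x) = ⊤) (u : Finset (Fin k))
    (g : Fr x hx u → Q) (c : C) (i : Fin k) : Q :=
  if (c, i) ∈ Dp x hx u then
    ((X x (lab0 x hx u g) i ^ (orderOf (x i) - 1)).left (c * x i))⁻¹
  else lab0 x hx u g c i

theorem lab_tr (hx : Subgroup.closure (Set.range x) = ⊤) (u : Finset (Fin k))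
    (g : Fr x hx u → Q) {c : C} {i : Fin k} (h : (c, i) ∈ Tr x hx) : lab x hx u g c i = 1 := by
  unfold lab lab0
  rw [if_neg (Set.disjoint_left.1 (dp_disj x hx u) h), dif_neg]
  intro h2
  exact h2 (Or.inl h)

theorem lab_fr (hx : Subgroup.closure (Set.range x) = ⊤) (u : Finset (Fin k))
    (g : Fr x hx u → Q) (e : Fr x hx u) : lab x hx u g e.1.1 e.1.2 = g e := by
  unfold lab lab0
  have h : (e.1.1, e.1.2) ∈ Fr x hx u := e.2
  rw [if_neg (fun h2 => h (Or.inr h2)), dif_pos h]

/-- two label functions which agree on the first `n` edges of a cycle -/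
theorem pow_congr (l l' : C → Fin k → Q) (i : Fin k) (n : ℕ) :
    ∀ c : C, (∀ j < n, l (c * x i ^ j) i = l' (c * x i ^ j) i) →
      (X x l i ^ n).left c = (X x l' i ^ n).left c := by
  induction n with
  | zero => intro c _; rw [pow_zero, pow_zero]
  | succ n ih =>
    intro c h
    rw [pow_succ', pow_succ', W.mul_left_apply, W.mul_left_apply]
    change l c i * (X x l i ^ n).left (c * x i) = l' c i * (X x l' i ^ n).left (c * x i)
    rw [ih (c * x i) (fun j hj => by
      have := h (j + 1) (by omega)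
      rwa [pow_succ', ← mul_assoc] at this)]
    have := h 0 (by omega)
    rw [pow_zero, mul_one] at this
    rw [this]

/-- the cycle products are trivial -/
theorem lab_pow (hx : Subgroup.closure (Set.range x) = ⊤) (u : Finset (Fin k))
    (g : Fr x hx u → Q) {i : Fin k} (hi : i ∈ u) : X x (lab x hx u g) i ^ orderOf (x i) = 1 := by
  have hs : (X x (lab x hx u g) i).right ^ orderOf (x i) = 1 := pow_orderOf_eq_one _
  have hpos := orderOf_pos (x i)
  have key : ∀ q : C ⧸ Subgroup.zpowers (x i),
      (X x (lab x hx u g) i ^ orderOf (x i)).left (rep x hx i q) = 1 := by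
    intro q
    have hD : (rep x hx i q, i) ∈ Dp x hx u := (mem_dp x hx u).2 ⟨hi, by rw [rep_mk]⟩
    obtain ⟨s, hs⟩ : ∃ s, orderOf (x i) = s + 1 := ⟨orderOf (x i) - 1, by omega⟩
    have e1 : (X x (lab x hx u g) i ^ orderOf (x i)).left (rep x hx i q) =
        lab x hx u g (rep x hx i q) i *
          (X x (lab x hx u g) i ^ s).left (rep x hx i q * x i) := by
      rw [hs, pow_succ', W.mul_left_apply]
      rfl
    have e2 : (X x (lab x hx u g) i ^ s).left (rep x hx i q * x i) =
        (X x (lab0 x hx u g) i ^ s).left (rep x hx i q * x i) := by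
      refine pow_congr x _ _ i s _ fun j hj => ?_
      have hn : (rep x hx i q * x i * x i ^ j, i) ∉ Dp x hx u := by
        rw [mem_dp]
        rintro ⟨-, h2⟩
        have h3 : ((rep x hx i q * x i * x i ^ j : C) : C ⧸ Subgroup.zpowers (x i)) = q := by
          rw [mul_assoc, ← pow_succ',
            QuotientGroup.mk_mul_of_mem _ (Subgroup.npow_mem_zpowers (x i) (j + 1)), rep_mk]
        rw [h3, mul_assoc, mul_eq_left, ← pow_succ'] at h2
        have h4 := orderOf_dvd_of_pow_eq_one h2
        have := Nat.le_of_dvd (by omega) h4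
        omega
      unfold lab
      rw [if_neg hn]
    rw [e1, e2]
    unfold lab
    rw [if_pos hD, hs, Nat.add_sub_cancel, inv_mul_cancel]
  apply SemidirectProduct.ext
  · funext c
    obtain ⟨z, hz⟩ : ∃ z : ℤ, rep x hx i (c : C ⧸ Subgroup.zpowers (x i)) * x i ^ z = c := by
      have h1 := rep_mk x hx i (c : C ⧸ Subgroup.zpowers (x i))
      rw [QuotientGroup.eq, Subgroup.mem_zpowers_iff] at h1
      obtain ⟨z, hz⟩ := h1
      exact ⟨z, by rw [hz, mul_inv_cancel_left]⟩
    obtain ⟨j, hj⟩ : ∃ j : ℕ, x i ^ j = x i ^ z :=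
      mem_powers_iff_mem_zpowers.2 (Subgroup.mem_zpowers_iff.2 ⟨z, rfl⟩)
    have h2 := cycle_shift hs (key (c : C ⧸ Subgroup.zpowers (x i))) j
    change (X x (lab x hx u g) i ^ orderOf (x i)).left
      (rep x hx i (c : C ⧸ Subgroup.zpowers (x i)) * x i ^ j) = 1 at h2
    rw [hj, hz] at h2
    exact h2
  · rw [W.pow_right, hs]
    rfl

end Pool.Agent.U613.PO
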